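import Pool.Agent.Y145.SP.Core

/-!
# Symbolic powers and powers of the maximal ideal: every dimension

The ideals are those of the monomial curves `(t ^ (N + 1), t ^ (N + 2), t ^ (N ^ 2 + N - 1))`, plus
ideals generated by coordinates, in the local rings of affine spaces.
-/

set_option autoImplicit false

namespace Pool.Agent.Results.MP_48a29b_ag.EveryDimension

open IsLocalRing Pool.Agent.Y145.SP

/-- Let `k` be a field, let `2 ≤ e < n` be integers and let `ε > 0`. There are a regular local ring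
`R` of dimension `n` containing `k` and a prime ideal `P ≠ 0` of `R` of height `e`, and a constant
`C`, such that

* `P ^ (r n)` is not contained in `𝔪 ^ (r n - r) P ^ r` for all `r ≥ C`,
* `P ^ (m)` is not contained in `𝔪 ^ (r n - r) P ^ r` for all `r` and all
  `m ≤ (n + 1 - ε) r - C`. -/
theorem result (k : Type) [Field k] (n e : ℕ) (he : 2 ≤ e) (hn : e < n) (ε : ℝ) (hε : 0 < ε) :
    ∃ (R : Type) (_ : CommRing R) (_ : Algebra k R) (_ : IsRegularLocalRing R) (P : Ideal R),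
      ringKrullDim R = n ∧ P.IsPrime ∧ P ≠ ⊥ ∧ P.height = e ∧ ∃ C : ℕ,
        (∀ r : ℕ, C ≤ r →
          ¬ (symbolicPower P (r * n) ≤ maximalIdeal R ^ (r * n - r) * P ^ r)) ∧
        (∀ m r : ℕ, (m : ℝ) + C ≤ (n + 1 - ε) * r →
          ¬ (symbolicPower P m ≤ maximalIdeal R ^ (r * n - r) * P ^ r)) := by
  obtain ⟨a, rfl⟩ : ∃ a, e = a + 2 := ⟨e - 2, by omega⟩
  obtain ⟨b, rfl⟩ : ∃ b, n = a + b + 3 := ⟨n - (a + 3), by omega⟩
  obtain ⟨N₀, hN₀⟩ := exists_nat_ge (((a + b + 3 : ℕ) + 1 : ℝ) / ε)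
  obtain ⟨N, hNdef⟩ : ∃ N, N = N₀ + 2 * (a + b + 3) := ⟨_, rfl⟩
  have hN : 2 ≤ N := by omega
  have hNe : 2 * (a + b + 3) ≤ N := by omega
  have hNpos : (0 : ℝ) < N := by exact_mod_cast (by omega : 0 < N)
  have hNε : ((a + b + 3 : ℕ) + 1 : ℝ) ≤ ε * N := by
    rw [div_le_iff₀ hε] at hN₀
    have : (N₀ : ℝ) ≤ N := by exact_mod_cast (by omega : N₀ ≤ N)
    nlinarith
  have hNe' : 2 * ((a + b + 3 : ℕ) : ℝ) ≤ N := by exact_mod_cast hNe
  refine ⟨Loc k a b, inferInstance, inferInstance, inferInstance, P k a b N, dim_Loc, P_prime hN,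
    ?_, P_height hN, 2 * (N + 2), ?_, ?_⟩
  · intro h
    have := P_height (k := k) (a := a) (b := b) hN
    rw [h, Ideal.height_bot] at this
    have h0 : (0 : ℕ∞) = ((a + 2 : ℕ) : ℕ∞) := this
    have h1 : (0 : ℕ) = a + 2 := by exact_mod_cast h0
    omega
  · intro r hr
    apply main_real hN
    have h0 : r ≤ r * (a + b + 3) := Nat.le_mul_of_pos_right _ (by omega)
    rw [Nat.cast_sub h0]
    push_cast
    have h1 : (2 * (N + 2) : ℝ) ≤ r := by exact_mod_cast hr
    have h2 : (r : ℝ) * (a + b + 3) / N ≤ r / 2 := by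
      rw [div_le_div_iff₀ hNpos (by norm_num)]
      push_cast at hNe'
      nlinarith [(Nat.cast_nonneg r : (0 : ℝ) ≤ r)]
    linarith
  · intro m r h
    apply main_real hN
    have h0 : r ≤ r * (a + b + 3) := Nat.le_mul_of_pos_right _ (by omega)
    rw [Nat.cast_sub h0]
    push_cast at h hNε ⊢
    have hm : (0 : ℝ) ≤ m := Nat.cast_nonneg m
    have hr : (0 : ℝ) ≤ r := Nat.cast_nonneg r
    have h1 : (m : ℝ) / N ≤ ε * r := by
      rw [div_le_iff₀ hNpos]
      have h2 : (m : ℝ) ≤ ((a : ℝ) + b + 3 + 1) * r := by nlinarith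
      nlinarith
    linarith

end Pool.Agent.Results.MP_48a29b_ag.EveryDimension
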